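import Mathlib

/-!
Convex bodies in the quadrant with a vertex at the origin: the auxiliary functions.
-/

namespace Pool.Agent.H81.XRay

open Set

/-- The level (sum of coordinates). -/
def lev (x : ℝ × ℝ) : ℝ := x.1 + x.2

theorem lev_continuous : Continuous lev := by
  unfold lev; fun_prop

theorem lev_combo (a b : ℝ) (x y : ℝ × ℝ) : lev (a • x + b • y) = a * lev x + b * lev y := by
  simp only [lev, Prod.fst_add, Prod.snd_add, Prod.smul_fst, Prod.smul_snd, smul_eq_mul]; ring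

theorem lev_smul (a : ℝ) (x : ℝ × ℝ) : lev (a • x) = a * lev x := by
  simp only [lev, Prod.smul_fst, Prod.smul_snd, smul_eq_mul]; ring

/-- A convex body in the closed quadrant containing the origin. -/
structure Corner (K : Set (ℝ × ℝ)) : Prop where
  cpt : IsCompact K
  cvx : Convex ℝ K
  zero : (0 : ℝ × ℝ) ∈ K
  fst : ∀ x ∈ K, 0 ≤ x.1
  snd : ∀ x ∈ K, 0 ≤ x.2
  int : (interior K).Nonempty

/-- The reflected body. -/
def mir (K : Set (ℝ × ℝ)) : Set (ℝ × ℝ) := Prod.swap ⁻¹' K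

theorem swp_swp (K : Set (ℝ × ℝ)) : mir (mir K) = K := by
  ext x; simp [mir]

theorem mem_swp {K : Set (ℝ × ℝ)} {x : ℝ × ℝ} : x ∈ mir K ↔ x.swap ∈ K := Iff.rfl

theorem swap_mem_swp {K : Set (ℝ × ℝ)} {x : ℝ × ℝ} : x.swap ∈ mir K ↔ x ∈ K := by
  simp [mir]

theorem lev_swap (x : ℝ × ℝ) : lev x.swap = lev x := by
  simp [lev, add_comm]

theorem swap_smul_add (a b : ℝ) (x y : ℝ × ℝ) :
    (a • x + b • y).swap = a • x.swap + b • y.swap := by
  ext <;> simp

theorem Corner.swp {K : Set (ℝ × ℝ)} (h : Corner K) : Corner (mir K) where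
  cpt := by
    have : XRay.mir K = (Homeomorph.prodComm ℝ ℝ) ⁻¹' K := by
      ext x; simp [XRay.mir]
    rw [this]
    exact (Homeomorph.prodComm ℝ ℝ).isCompact_preimage.2 h.cpt
  cvx := by
    intro x hx y hy a b ha hb hab
    have := h.cvx hx hy ha hb hab
    rw [mem_swp, swap_smul_add]
    exact this
  zero := by
    rw [mem_swp]; simpa using h.zero
  fst := fun x hx => h.snd _ hx
  snd := fun x hx => h.fst _ hx
  int := by
    have : XRay.mir K = (Homeomorph.prodComm ℝ ℝ) ⁻¹' K := by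
      ext x; simp [XRay.mir]
    rw [this, ← Homeomorph.preimage_interior]
    obtain ⟨x, hx⟩ := h.int
    exact ⟨x.swap, by simpa using hx⟩

/-- Top level. -/
noncomputable def top (K : Set (ℝ × ℝ)) : ℝ := sSup (lev '' K)

theorem top_swp (K : Set (ℝ × ℝ)) : top (mir K) = top K := by
  unfold top
  congr 1
  ext y
  constructor
  · rintro ⟨x, hx, rfl⟩
    exact ⟨x.swap, hx, lev_swap x⟩
  · rintro ⟨x, hx, rfl⟩
    exact ⟨x.swap, swap_mem_swp.2 hx, lev_swap x⟩

/-- Largest level of a point of `K` with first coordinate at most `s`. -/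
noncomputable def YL (K : Set (ℝ × ℝ)) (s : ℝ) : ℝ := sSup (lev '' (K ∩ {x | x.1 ≤ s}))

/-- The set of pairs used in the definition of `BB`. -/
def pairs (K : Set (ℝ × ℝ)) (y : ℝ) : Set ((ℝ × ℝ) × (ℝ × ℝ)) :=
  (K ×ˢ K) ∩ ({z | lev z.1 = y} ∩ {z | z.2.1 ≤ z.1.1})

/-- Largest level of a point of `K` which is not to the right of some point of `K` of level `y`. -/
noncomputable def BB (K : Set (ℝ × ℝ)) (y : ℝ) : ℝ :=
  sSup ((fun z : (ℝ × ℝ) × (ℝ × ℝ) => lev z.2) '' pairs K y)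

theorem pairs_compact {K : Set (ℝ × ℝ)} (h : IsCompact K) (y : ℝ) : IsCompact (pairs K y) := by
  unfold pairs
  refine (h.prod h).inter_right (IsClosed.inter ?_ ?_)
  · exact isClosed_eq (lev_continuous.comp continuous_fst) continuous_const
  · exact isClosed_le (continuous_fst.comp continuous_snd) (continuous_fst.comp continuous_fst)

section
variable {K : Set (ℝ × ℝ)} (h : Corner K)
include h

theorem Corner.le_top {x : ℝ × ℝ} (hx : x ∈ K) : lev x ≤ top K :=
  le_csSup (h.cpt.image lev_continuous).bddAbove ⟨x, hx, rfl⟩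

theorem Corner.top_exists : ∃ x ∈ K, lev x = top K := by
  have := (h.cpt.image lev_continuous).sSup_mem ⟨_, 0, h.zero, rfl⟩
  exact this

theorem Corner.lev_nonneg {x : ℝ × ℝ} (hx : x ∈ K) : 0 ≤ lev x :=
  add_nonneg (h.fst x hx) (h.snd x hx)

theorem Corner.top_nonneg : 0 ≤ top K := by
  obtain ⟨x, hx, e⟩ := h.top_exists
  rw [← e]; exact h.lev_nonneg hx

theorem Corner.smul_mem {x : ℝ × ℝ} (hx : x ∈ K) {a : ℝ} (ha : 0 ≤ a) (ha1 : a ≤ 1) :
    a • x ∈ K := by
  have := h.cvx hx h.zero ha (sub_nonneg.2 ha1) (by ring)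
  simpa using this

theorem Corner.exists_level {y : ℝ} (hy : y ∈ Icc 0 (top K)) : ∃ x ∈ K, lev x = y := by
  obtain ⟨x, hx, e⟩ := h.top_exists
  rcases eq_or_lt_of_le h.top_nonneg with h0 | h0
  · refine ⟨x, hx, ?_⟩
    have := hy.1; have := hy.2; linarith
  · refine ⟨(y / top K) • x, h.smul_mem hx (div_nonneg hy.1 h0.le) ((div_le_one h0).2 hy.2), ?_⟩
    rw [lev_smul, e]; field_simp

theorem Corner.le_YL {x : ℝ × ℝ} (hx : x ∈ K) {s : ℝ} (hs : x.1 ≤ s) : lev x ≤ YL K s :=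
  le_csSup ((h.cpt.image lev_continuous).bddAbove.mono (image_mono inter_subset_left))
    ⟨x, ⟨hx, hs⟩, rfl⟩

theorem Corner.YL_exists {s : ℝ} (hs : 0 ≤ s) : ∃ x ∈ K, x.1 ≤ s ∧ lev x = YL K s := by
  have hc : IsCompact (K ∩ {x : ℝ × ℝ | x.1 ≤ s}) :=
    h.cpt.inter_right (isClosed_le continuous_fst continuous_const)
  obtain ⟨x, hx, e⟩ := (hc.image lev_continuous).sSup_mem ⟨_, 0, ⟨h.zero, hs⟩, rfl⟩
  exact ⟨x, hx.1, hx.2, e⟩

theorem Corner.YL_mem {s : ℝ} (hs : 0 ≤ s) : YL K s ∈ Icc 0 (top K) := by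
  obtain ⟨x, hx, _, e⟩ := h.YL_exists hs
  rw [← e]; exact ⟨h.lev_nonneg hx, h.le_top hx⟩

theorem Corner.YL_mono : MonotoneOn (YL K) (Ici 0) := by
  intro s hs t ht hst
  obtain ⟨x, hx, h1, e⟩ := h.YL_exists hs
  rw [← e]; exact h.le_YL hx (h1.trans hst)

theorem Corner.YL_concave : ConcaveOn ℝ (Ici 0) (YL K) := by
  refine ⟨convex_Ici 0, ?_⟩
  intro s hs t ht a b ha hb hab
  obtain ⟨x, hx, h1, e⟩ := h.YL_exists hs
  obtain ⟨z, hz, h2, e'⟩ := h.YL_exists ht
  rw [← e, ← e', smul_eq_mul, smul_eq_mul, ← lev_combo]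
  apply h.le_YL (h.cvx hx hz ha hb hab)
  simp only [Prod.fst_add, Prod.smul_fst, smul_eq_mul]
  nlinarith

theorem Corner.le_BB {a b : ℝ × ℝ} (ha : a ∈ K) (hb : b ∈ K) (hab : b.1 ≤ a.1) :
    lev b ≤ BB K (lev a) :=
  le_csSup ((pairs_compact h.cpt _).image (lev_continuous.comp continuous_snd)).bddAbove
    ⟨(a, b), ⟨⟨ha, hb⟩, rfl, hab⟩, rfl⟩

theorem Corner.BB_exists {y : ℝ} (hy : y ∈ Icc 0 (top K)) :
    ∃ a ∈ K, ∃ b ∈ K, lev a = y ∧ b.1 ≤ a.1 ∧ lev b = BB K y := by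
  obtain ⟨x, hx, e⟩ := h.exists_level hy
  obtain ⟨z, hz, e'⟩ := ((pairs_compact h.cpt y).image
    (lev_continuous.comp continuous_snd)).sSup_mem ⟨_, (x, x), ⟨⟨hx, hx⟩, e, le_refl x.1⟩, rfl⟩
  exact ⟨z.1, hz.1.1, z.2, hz.1.2, hz.2.1, hz.2.2, e'⟩

theorem Corner.BB_mem {y : ℝ} (hy : y ∈ Icc 0 (top K)) : BB K y ∈ Icc 0 (top K) := by
  obtain ⟨a, ha, b, hb, _, _, e⟩ := h.BB_exists hy
  rw [← e]; exact ⟨h.lev_nonneg hb, h.le_top hb⟩

theorem Corner.self_le_BB {y : ℝ} (hy : y ∈ Icc 0 (top K)) : y ≤ BB K y := by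
  obtain ⟨x, hx, rfl⟩ := h.exists_level hy
  exact h.le_BB hx hx le_rfl

theorem Corner.BB_concave : ConcaveOn ℝ (Icc 0 (top K)) (BB K) := by
  refine ⟨convex_Icc _ _, ?_⟩
  intro s hs t ht a b ha hb hab
  obtain ⟨x, hx, x', hx', e1, e2, e3⟩ := h.BB_exists hs
  obtain ⟨z, hz, z', hz', f1, f2, f3⟩ := h.BB_exists ht
  rw [← e3, ← f3, smul_eq_mul, smul_eq_mul, smul_eq_mul, smul_eq_mul, ← lev_combo, ← e1, ← f1,
    ← lev_combo]
  apply h.le_BB (h.cvx hx hz ha hb hab) (h.cvx hx' hz' ha hb hab)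
  simp only [Prod.fst_add, Prod.smul_fst, smul_eq_mul]
  nlinarith

theorem Corner.BB_mono : MonotoneOn (BB K) (Icc 0 (top K)) := by
  intro s hs t ht hst
  have hT : top K ∈ Icc 0 (top K) := ⟨h.top_nonneg, le_rfl⟩
  have h1 : BB K s ≤ BB K (top K) := (h.BB_mem hs).2.trans (h.self_le_BB hT)
  rcases eq_or_lt_of_le (hst.trans ht.2) with h0 | h0
  · have h2 : t = top K := le_antisymm ht.2 (h0 ▸ hst)
    rw [h2]; exact h1
  · have hd : 0 < top K - s := by linarith
    have ha : 0 ≤ (top K - t) / (top K - s) := div_nonneg (by linarith [ht.2]) hd.le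
    have hb : 0 ≤ (t - s) / (top K - s) := div_nonneg (by linarith) hd.le
    have hs1 : (top K - t) / (top K - s) + (t - s) / (top K - s) = 1 := by field_simp; ring
    have key := h.BB_concave.2 hs hT ha hb hs1
    have e : ((top K - t) / (top K - s)) • s + ((t - s) / (top K - s)) • top K = t := by
      simp only [smul_eq_mul]; field_simp; ring
    rw [e] at key
    refine le_trans ?_ key
    simp only [smul_eq_mul]
    calc BB K s = ((top K - t) / (top K - s) + (t - s) / (top K - s)) * BB K s := by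
          rw [hs1, one_mul]
      _ ≤ _ := by nlinarith

/-- Interior points on every intermediate level. -/
theorem Corner.exists_interior_level {y : ℝ} (h0 : 0 < y) (h1 : y < top K) :
    ∃ x ∈ interior K, lev x = y := by
  obtain ⟨x, hx⟩ := h.int
  have hxK := interior_subset hx
  rcases le_total y (lev x) with hc | hc
  · have hp : 0 < lev x := lt_of_lt_of_le h0 hc
    refine ⟨(y / lev x) • x + (1 - y / lev x) • (0 : ℝ × ℝ), ?_, ?_⟩
    · exact h.cvx.combo_interior_self_mem_interior hx h.zero (div_pos h0 hp)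
        (sub_nonneg.2 ((div_le_one hp).2 hc)) (by ring)
    · rw [smul_zero, add_zero, lev_smul]; field_simp
  · obtain ⟨t, ht, e⟩ := h.top_exists
    have hd : 0 < top K - lev x := by linarith
    refine ⟨((top K - y) / (top K - lev x)) • x + ((y - lev x) / (top K - lev x)) • t, ?_, ?_⟩
    · exact h.cvx.combo_interior_self_mem_interior hx ht (div_pos (by linarith) hd)
        (div_nonneg (by linarith) hd.le) (by field_simp; ring)
    · rw [lev_combo, e]; field_simp; ring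

end

/-- A sup-norm ball around an interior point. -/
theorem exists_box {K : Set (ℝ × ℝ)} {x : ℝ × ℝ} (hx : x ∈ interior K) :
    ∃ r > 0, ∀ z : ℝ × ℝ, |z.1 - x.1| ≤ r → |z.2 - x.2| ≤ r → z ∈ K := by
  obtain ⟨r, hr, hb⟩ := Metric.nhds_basis_closedBall.mem_iff.1 (mem_interior_iff_mem_nhds.1 hx)
  refine ⟨r, hr, fun z h1 h2 => hb ?_⟩
  rw [Metric.mem_closedBall, Prod.dist_eq, Real.dist_eq, Real.dist_eq]
  exact max_le h1 h2

section
variable {K : Set (ℝ × ℝ)} (h : Corner K)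
include h

theorem Corner.self_lt_BB {y : ℝ} (h0 : 0 < y) (h1 : y < top K) : y < BB K y := by
  obtain ⟨x, hx, rfl⟩ := h.exists_interior_level h0 h1
  obtain ⟨r, hr, hb⟩ := exists_box hx
  have h2 : (x.1, x.2 + r) ∈ K := hb _ (by simp [hr.le]) (by simp [abs_of_pos hr])
  have := h.le_BB (interior_subset hx) h2 le_rfl
  simp only [lev] at *
  linarith

theorem Corner.exists_lam {η : ℝ} (h0 : 0 < η) (h1 : η < top K) :
    ∃ lam : ℝ, 1 < lam ∧ ∀ y, 0 ≤ y → y ≤ η → lam * y ≤ BB K y := by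
  refine ⟨BB K η / η, ?_, ?_⟩
  · rw [one_lt_div h0]; exact h.self_lt_BB h0 h1
  · intro y hy hyη
    have hT : (0:ℝ) ∈ Icc 0 (top K) := ⟨le_rfl, h.top_nonneg⟩
    have hη : η ∈ Icc 0 (top K) := ⟨h0.le, h1.le⟩
    have ha : 0 ≤ y / η := div_nonneg hy h0.le
    have hb : 0 ≤ 1 - y / η := sub_nonneg.2 ((div_le_one h0).2 hyη)
    have key := h.BB_concave.2 hη hT ha hb (by ring)
    have e : (y / η) • η + (1 - y / η) • (0:ℝ) = y := by
      simp only [smul_eq_mul]; field_simp; ring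
    rw [e] at key
    simp only [smul_eq_mul] at key
    have h3 : 0 ≤ (1 - y / η) * BB K 0 :=
      mul_nonneg (sub_nonneg.2 ((div_le_one h0).2 hyη)) (h.BB_mem hT).1
    calc BB K η / η * y = y / η * BB K η := by field_simp
      _ ≤ _ := by linarith

end

/-- The iterated sum. -/
noncomputable def Gam (K : Set (ℝ × ℝ)) (η : ℝ) : ℕ → ℝ → ℝ
  | 0, _ => 0
  | n + 1, y => max (η - y) 0 + Gam K η n (BB K y)

section
variable {K : Set (ℝ × ℝ)} (h : Corner K)
include h

theorem Corner.Gam_eq_zero {η : ℝ} (n : ℕ) {y : ℝ} (hy : y ∈ Icc 0 (top K)) (hη : η ≤ y) :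
    Gam K η n y = 0 := by
  induction n generalizing y with
  | zero => rfl
  | succ n ih =>
    rw [Gam, ih (h.BB_mem hy) (hη.trans (h.self_le_BB hy)), max_eq_right (by linarith)]
    simp

theorem Corner.Gam_nonneg {η : ℝ} (n : ℕ) {y : ℝ} (hy : y ∈ Icc 0 (top K)) :
    0 ≤ Gam K η n y := by
  induction n generalizing y with
  | zero => exact le_rfl
  | succ n ih =>
    rw [Gam]
    exact add_nonneg (le_max_right _ _) (ih (h.BB_mem hy))

theorem Corner.Gam_le {η : ℝ} (hη : 0 ≤ η) (n : ℕ) {y : ℝ} (hy : y ∈ Icc 0 (top K)) :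
    Gam K η n y ≤ n * η := by
  induction n generalizing y with
  | zero => simp [Gam]
  | succ n ih =>
    rw [Gam]
    have h1 := ih (h.BB_mem hy)
    have h2 : max (η - y) 0 ≤ η := max_le (by linarith [hy.1]) hη
    push_cast
    linarith

theorem Corner.Gam_anti {η : ℝ} (n : ℕ) : AntitoneOn (Gam K η n) (Icc 0 (top K)) := by
  induction n with
  | zero => intro _ _ _ _ _; exact le_rfl
  | succ n ih =>
    intro s hs t ht hst
    rw [Gam, Gam]
    exact add_le_add (max_le_max (by linarith) le_rfl)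
      (ih (h.BB_mem hs) (h.BB_mem ht) (h.BB_mono hs ht hst))

theorem Corner.Gam_convex {η : ℝ} (n : ℕ) : ConvexOn ℝ (Icc 0 (top K)) (Gam K η n) := by
  induction n with
  | zero => 
    refine ⟨convex_Icc _ _, ?_⟩
    intro _ _ _ _ a b _ _ _
    simp [Gam]
  | succ n ih =>
    refine ⟨convex_Icc _ _, ?_⟩
    intro s hs t ht a b ha hb hab
    have hst : a • s + b • t ∈ Icc 0 (top K) := (convex_Icc _ _) hs ht ha hb hab
    have h1 := h.BB_concave.2 hs ht ha hb hab
    have h2 : a • BB K s + b • BB K t ∈ Icc 0 (top K) :=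
      (convex_Icc _ _) (h.BB_mem hs) (h.BB_mem ht) ha hb hab
    have h3 := h.Gam_anti (η := η) n h2 (h.BB_mem hst) h1
    have h4 := ih.2 (h.BB_mem hs) (h.BB_mem ht) ha hb hab
    have h5 : max (η - (a • s + b • t)) 0 ≤ a * max (η - s) 0 + b * max (η - t) 0 := by
      have e1 : η - s ≤ max (η - s) 0 := le_max_left _ _
      have e2 : η - t ≤ max (η - t) 0 := le_max_left _ _
      have e3 : 0 ≤ max (η - s) 0 := le_max_right _ _
      have e4 : 0 ≤ max (η - t) 0 := le_max_right _ _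
      refine max_le ?_ (add_nonneg (mul_nonneg ha e3) (mul_nonneg hb e4))
      simp only [smul_eq_mul]
      have : η = a * η + b * η := by rw [← add_mul, hab, one_mul]
      nlinarith [mul_le_mul_of_nonneg_left e1 ha, mul_le_mul_of_nonneg_left e2 hb]
    simp only [Gam, smul_eq_mul] at *
    nlinarith

theorem Corner.Gam_stab {η lam : ℝ} (hlam : 1 < lam)
    (hB : ∀ y, 0 ≤ y → y ≤ η → lam * y ≤ BB K y) (n : ℕ) {y : ℝ} (hy : y ∈ Icc 0 (top K))
    (hn : η ≤ lam ^ n * y) : Gam K η (n + 1) y = Gam K η n y := by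
  induction n generalizing y with
  | zero =>
    rw [pow_zero, one_mul] at hn
    rw [h.Gam_eq_zero 1 hy hn, h.Gam_eq_zero 0 hy hn]
  | succ n ih =>
    have e1 : Gam K η (n + 1 + 1) y = max (η - y) 0 + Gam K η (n + 1) (BB K y) := rfl
    have e2 : Gam K η (n + 1) y = max (η - y) 0 + Gam K η n (BB K y) := rfl
    rw [e1, e2, ih (h.BB_mem hy)]
    rcases le_total y η with hc | hc
    · calc η ≤ lam ^ (n + 1) * y := hn
        _ = lam ^ n * (lam * y) := by ring
        _ ≤ lam ^ n * BB K y := by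
          apply mul_le_mul_of_nonneg_left (hB y hy.1 hc) (by positivity)
    · have h1 : 1 ≤ lam ^ n := one_le_pow₀ hlam.le
      have h2 := h.self_le_BB hy
      calc η ≤ BB K y := hc.trans h2
        _ = 1 * BB K y := by ring
        _ ≤ lam ^ n * BB K y := mul_le_mul_of_nonneg_right h1 (h.BB_mem hy).1

end

/-- The function of the first coordinate. -/
noncomputable def fL (K : Set (ℝ × ℝ)) (η : ℝ) (n : ℕ) (s : ℝ) : ℝ :=
  Gam K η n (YL K (max s 0))

/-- The function of the level, before clamping. -/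
noncomputable def Gs (K : Set (ℝ × ℝ)) (η : ℝ) (n : ℕ) (y : ℝ) : ℝ :=
  max (η - y) 0 + Gam K η n (BB K y) + Gam (mir K) η n (BB (mir K) y)

theorem Gs_swp (K : Set (ℝ × ℝ)) (η : ℝ) (n : ℕ) (y : ℝ) : Gs (mir K) η n y = Gs K η n y := by
  unfold Gs; rw [swp_swp]; ring

section
variable {K : Set (ℝ × ℝ)} (h : Corner K)
include h

theorem Corner.fL_nonneg {η : ℝ} (n : ℕ) (s : ℝ) : 0 ≤ fL K η n s :=
  h.Gam_nonneg n (h.YL_mem (le_max_right _ _))

theorem Corner.fL_le {η : ℝ} (hη : 0 ≤ η) (n : ℕ) (s : ℝ) : fL K η n s ≤ n * η :=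
  h.Gam_le hη n (h.YL_mem (le_max_right _ _))

theorem Corner.fL_anti {η : ℝ} (n : ℕ) : Antitone (fL K η n) := by
  intro s t hst
  exact h.Gam_anti n (h.YL_mem (le_max_right _ _)) (h.YL_mem (le_max_right _ _))
    (h.YL_mono (mem_Ici.2 (le_max_right _ _)) (mem_Ici.2 (le_max_right _ _))
      (max_le_max hst le_rfl))

theorem Corner.fL_convex {η : ℝ} (n : ℕ) {s t : ℝ} (hs : 0 ≤ s) (ht : 0 ≤ t) {a b : ℝ}
    (ha : 0 ≤ a) (hb : 0 ≤ b) (hab : a + b = 1) :
    fL K η n (a * s + b * t) ≤ a * fL K η n s + b * fL K η n t := by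
  have hst : 0 ≤ a * s + b * t := add_nonneg (mul_nonneg ha hs) (mul_nonneg hb ht)
  unfold fL
  rw [max_eq_left hs, max_eq_left ht, max_eq_left hst]
  have h1 := h.YL_concave.2 (mem_Ici.2 hs) (mem_Ici.2 ht) ha hb hab
  have h2 : a • YL K s + b • YL K t ∈ Icc 0 (top K) :=
      (convex_Icc _ _) (h.YL_mem hs) (h.YL_mem ht) ha hb hab
  have h3 := h.Gam_anti (η := η) n h2 (h.YL_mem hst) h1
  have h4 := (h.Gam_convex (η := η) n).2 (h.YL_mem hs) (h.YL_mem ht) ha hb hab
  simp only [smul_eq_mul] at *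
  exact h3.trans h4

/-- At the right end of a level. -/
theorem Corner.fL_right {η : ℝ} (n : ℕ) {r : ℝ × ℝ} (hr : r ∈ K)
    (hmax : ∀ x ∈ K, lev x = lev r → x.1 ≤ r.1) :
    fL K η n r.1 = Gam K η n (BB K (lev r)) := by
  unfold fL
  rw [max_eq_left (h.fst r hr)]
  congr 1
  apply le_antisymm
  · obtain ⟨x, hx, h1, e⟩ := h.YL_exists (h.fst r hr)
    rw [← e]; exact h.le_BB hr hx h1
  · obtain ⟨a, ha, b, hb, h1, h2, e⟩ := h.BB_exists (y := lev r) ⟨h.lev_nonneg hr, h.le_top hr⟩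
    rw [← e]; exact h.le_YL hb (h2.trans (hmax a ha h1))

theorem Corner.fL_le_of_mem {η : ℝ} (n : ℕ) {x : ℝ × ℝ} (hx : x ∈ K) :
    fL K η n x.1 ≤ Gam K η n (lev x) := by
  unfold fL
  rw [max_eq_left (h.fst x hx)]
  exact h.Gam_anti n ⟨h.lev_nonneg hx, h.le_top hx⟩ (h.YL_mem (h.fst x hx)) (h.le_YL hx le_rfl)

/-- At the left end of a level. -/
theorem Corner.fL_left {η : ℝ} (n : ℕ) {l : ℝ × ℝ} (hl : l ∈ K) (hpos : 0 < l.1)
    (hmin : ∀ x ∈ K, lev x = lev l → l.1 ≤ x.1) :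
    fL K η n l.1 = Gam K η n (lev l) := by
  apply le_antisymm (h.fL_le_of_mem n hl)
  unfold fL
  rw [max_eq_left (h.fst l hl)]
  refine h.Gam_anti n (h.YL_mem (h.fst l hl)) ⟨h.lev_nonneg hl, h.le_top hl⟩ ?_
  by_contra hcon
  push Not at hcon
  obtain ⟨x, hx, h1, e⟩ := h.YL_exists (h.fst l hl)
  rw [← e] at hcon
  have hl0 : 0 < lev l := by
    have := h.snd l hl
    unfold lev; linarith
  have hx0 : 0 < lev x := hl0.trans hcon
  have h2 : (lev l / lev x) • x ∈ K :=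
    h.smul_mem hx (div_nonneg hl0.le hx0.le) ((div_le_one hx0).2 hcon.le)
  have h3 := hmin _ h2 (by rw [lev_smul]; field_simp)
  simp only [Prod.smul_fst, smul_eq_mul] at h3
  have h4 : lev l / lev x < 1 := (div_lt_one hx0).2 hcon
  have h5 : 0 ≤ x.1 := h.fst x hx
  have h6 : 0 ≤ lev l / lev x := div_nonneg hl0.le hx0.le
  rcases eq_or_lt_of_le h5 with h7 | h7
  · rw [← h7, mul_zero] at h3; linarith
  · nlinarith

end

end Pool.Agent.H81.XRay
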