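import Mathlib

/-!
X-rays determine the measures of the parts of a set between parallel lines.
-/

namespace Pool.Agent.H81.XRay

open MeasureTheory Set

/-- A linear functional with value one at `u`. -/
noncomputable def nrm (u : ℝ × ℝ) : (ℝ × ℝ) → ℝ :=
  fun x => (u.1 * x.1 + u.2 * x.2) / (u.1 ^ 2 + u.2 ^ 2)

theorem nrm_add (u : ℝ × ℝ) (hu : u ≠ 0) (x : ℝ × ℝ) (t : ℝ) :
    nrm u (x + t • u) = nrm u x + t := by
  have h : u.1 ^ 2 + u.2 ^ 2 ≠ 0 := by
    intro h
    have h1 : u.1 = 0 := by nlinarith [sq_nonneg u.1, sq_nonneg u.2]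
    have h2 : u.2 = 0 := by nlinarith [sq_nonneg u.1, sq_nonneg u.2]
    exact hu (by ext <;> simp [h1, h2])
  unfold nrm
  simp only [Prod.fst_add, Prod.snd_add, Prod.smul_fst, Prod.smul_snd, smul_eq_mul]
  field_simp
  ring

theorem nrm_measurable (u : ℝ × ℝ) : Measurable (nrm u) := by
  unfold nrm; fun_prop

theorem measure_eq_xray (u : ℝ × ℝ) (hu : u ≠ 0) (l : (ℝ × ℝ) →ₗ[ℝ] ℝ) (hl : l u = 0)
    {E : Set (ℝ × ℝ)} (hE : MeasurableSet E) {S : Set ℝ} (hS : MeasurableSet S) :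
    volume (E ∩ l ⁻¹' S) = ∫⁻ x : ℝ × ℝ, ({x | 0 ≤ nrm u x ∧ nrm u x < 1} ∩ l ⁻¹' S).indicator 1 x *
      ∫⁻ t : ℝ, E.indicator (1 : ℝ × ℝ → ENNReal) (x + t • u) := by
  classical
  have hlm : Measurable l := l.continuous_of_finiteDimensional.measurable
  have hlS : MeasurableSet (l ⁻¹' S) := hlm hS
  -- the integrand, in shifted form
  set J : (ℝ × ℝ) → ℝ → ENNReal := fun x t =>
    {x | 0 ≤ nrm u x - t ∧ nrm u x - t < 1}.indicator 1 x * (E ∩ l ⁻¹' S).indicator 1 x with hJ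
  have hset : ∀ t : ℝ, MeasurableSet {x | 0 ≤ nrm u x - t ∧ nrm u x - t < 1} := by
    intro t
    exact (measurableSet_le measurable_const ((nrm_measurable u).sub_const t)).inter
      (measurableSet_lt ((nrm_measurable u).sub_const t) measurable_const)
  have hJm : ∀ t, Measurable (fun x => J x t) := by
    intro t
    exact (measurable_one.indicator (hset t)).mul (measurable_one.indicator (hE.inter hlS))
  have step1 : ∀ x : ℝ × ℝ, ({x | 0 ≤ nrm u x ∧ nrm u x < 1} ∩ l ⁻¹' S).indicator 1 x *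
      ∫⁻ t : ℝ, E.indicator (1 : ℝ × ℝ → ENNReal) (x + t • u) =
      ∫⁻ t : ℝ, J (x + t • u) t := by
    intro x
    have hc : Measurable (fun t : ℝ => E.indicator (1 : ℝ × ℝ → ENNReal) (x + t • u)) :=
      (measurable_one.indicator hE).comp (by fun_prop)
    rw [← lintegral_const_mul _ hc]
    refine lintegral_congr fun t => ?_
    rw [hJ]
    simp only [Set.indicator_apply, mem_inter_iff, mem_ofPred_eq, mem_preimage, nrm_add u hu,
      add_sub_cancel_right, map_add, map_smul, hl, smul_zero, add_zero, Pi.one_apply]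
    split_ifs <;> simp_all
  have step2 : ∀ x : ℝ × ℝ, ∫⁻ t : ℝ, J x t = (E ∩ l ⁻¹' S).indicator 1 x := by
    intro x
    rw [hJ]
    have hc : Measurable (fun t : ℝ => ({x | 0 ≤ nrm u x - t ∧ nrm u x - t < 1}.indicator
        (1 : ℝ × ℝ → ENNReal) x)) := by
      have : (fun t : ℝ => ({x | 0 ≤ nrm u x - t ∧ nrm u x - t < 1}.indicator
        (1 : ℝ × ℝ → ENNReal) x)) = (Ioc (nrm u x - 1) (nrm u x)).indicator 1 := by
        funext t
        simp only [Set.indicator_apply, mem_ofPred_eq, mem_Ioc, Pi.one_apply]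
        congr 1
        apply propext
        constructor <;> rintro ⟨h1, h2⟩ <;> constructor <;> linarith
      rw [this]
      exact measurable_one.indicator measurableSet_Ioc
    rw [lintegral_mul_const _ hc]
    have : ∫⁻ t : ℝ, ({x | 0 ≤ nrm u x - t ∧ nrm u x - t < 1}.indicator
        (1 : ℝ × ℝ → ENNReal) x) = 1 := by
      have e : ∀ t : ℝ, ({x | 0 ≤ nrm u x - t ∧ nrm u x - t < 1}.indicator
        (1 : ℝ × ℝ → ENNReal) x) = (Ioc (nrm u x - 1) (nrm u x)).indicator 1 t := by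
        intro t
        simp only [Set.indicator_apply, mem_ofPred_eq, mem_Ioc, Pi.one_apply]
        congr 1
        apply propext
        constructor <;> rintro ⟨h1, h2⟩ <;> constructor <;> linarith
      simp_rw [e]
      rw [lintegral_indicator_one measurableSet_Ioc, Real.volume_Ioc]
      simp
    rw [this, one_mul]
  have hset2 : MeasurableSet {z : (ℝ × ℝ) × ℝ | 0 ≤ nrm u z.1 - z.2 ∧ nrm u z.1 - z.2 < 1} := by
    have hm : Measurable (fun z : (ℝ × ℝ) × ℝ => nrm u z.1 - z.2) :=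
      ((nrm_measurable u).comp measurable_fst).sub measurable_snd
    exact (measurableSet_le measurable_const hm).inter (measurableSet_lt hm measurable_const)
  have hJ2 : Measurable (fun z : (ℝ × ℝ) × ℝ => J z.1 z.2) := by
    have : (fun z : (ℝ × ℝ) × ℝ => J z.1 z.2) = fun z =>
      {z : (ℝ × ℝ) × ℝ | 0 ≤ nrm u z.1 - z.2 ∧ nrm u z.1 - z.2 < 1}.indicator 1 z *
      (E ∩ l ⁻¹' S).indicator 1 z.1 := by
      funext z
      simp only [hJ, Set.indicator_apply, mem_ofPred_eq, Pi.one_apply]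
    rw [this]
    exact (measurable_one.indicator hset2).mul
      ((measurable_one.indicator (hE.inter hlS)).comp measurable_fst)
  have hJ3 : Measurable (fun z : (ℝ × ℝ) × ℝ => J (z.1 + z.2 • u) z.2) :=
    hJ2.comp (f := fun z : (ℝ × ℝ) × ℝ => (z.1 + z.2 • u, z.2)) (by fun_prop)
  calc volume (E ∩ l ⁻¹' S) = ∫⁻ x : ℝ × ℝ, (E ∩ l ⁻¹' S).indicator 1 x := by
        rw [lintegral_indicator_one (hE.inter hlS)]
    _ = ∫⁻ x : ℝ × ℝ, ∫⁻ t : ℝ, J x t := by simp_rw [step2]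
    _ = ∫⁻ t : ℝ, ∫⁻ x : ℝ × ℝ, J x t := lintegral_lintegral_swap hJ2.aemeasurable
    _ = ∫⁻ t : ℝ, ∫⁻ x : ℝ × ℝ, J (x + t • u) t := by
        refine lintegral_congr fun t => ?_
        exact (lintegral_add_right_eq_self (fun x => J x t) (t • u)).symm
    _ = ∫⁻ x : ℝ × ℝ, ∫⁻ t : ℝ, J (x + t • u) t :=
        (lintegral_lintegral_swap hJ3.aemeasurable).symm
    _ = _ := by simp_rw [step1]

/-- Equal X-rays give equal measures of the parts in parallel strips. -/
theorem measure_strip_eq (u : ℝ × ℝ) (hu : u ≠ 0) (l : (ℝ × ℝ) →ₗ[ℝ] ℝ) (hl : l u = 0)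
    {E K : Set (ℝ × ℝ)} (hE : MeasurableSet E) (hK : MeasurableSet K)
    (hx : ∀ᵐ x ∂(volume : Measure (ℝ × ℝ)),
      (∫⁻ t : ℝ, E.indicator (1 : ℝ × ℝ → ENNReal) (x + t • u)) =
      (∫⁻ t : ℝ, K.indicator (1 : ℝ × ℝ → ENNReal) (x + t • u)))
    {S : Set ℝ} (hS : MeasurableSet S) :
    volume (E ∩ l ⁻¹' S) = volume (K ∩ l ⁻¹' S) := by
  rw [measure_eq_xray u hu l hl hE hS, measure_eq_xray u hu l hl hK hS]
  refine lintegral_congr_ae ?_
  filter_upwards [hx] with x hx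
  rw [hx]

theorem map_restrict_eq (u : ℝ × ℝ) (hu : u ≠ 0) (l : (ℝ × ℝ) →ₗ[ℝ] ℝ) (hl : l u = 0)
    {E K : Set (ℝ × ℝ)} (hE : MeasurableSet E) (hK : MeasurableSet K)
    (hx : ∀ᵐ x ∂(volume : Measure (ℝ × ℝ)),
      (∫⁻ t : ℝ, E.indicator (1 : ℝ × ℝ → ENNReal) (x + t • u)) =
      (∫⁻ t : ℝ, K.indicator (1 : ℝ × ℝ → ENNReal) (x + t • u))) :
    (volume.restrict E).map l = (volume.restrict K).map l := by
  have hlm : Measurable l := l.continuous_of_finiteDimensional.measurable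
  ext S hS
  rw [Measure.map_apply hlm hS, Measure.map_apply hlm hS, Measure.restrict_apply (hlm hS),
    Measure.restrict_apply (hlm hS), inter_comm, inter_comm _ K]
  exact measure_strip_eq u hu l hl hE hK hx hS

theorem integral_eq (u : ℝ × ℝ) (hu : u ≠ 0) (l : (ℝ × ℝ) →ₗ[ℝ] ℝ) (hl : l u = 0)
    {E K : Set (ℝ × ℝ)} (hE : MeasurableSet E) (hK : MeasurableSet K)
    (hx : ∀ᵐ x ∂(volume : Measure (ℝ × ℝ)),
      (∫⁻ t : ℝ, E.indicator (1 : ℝ × ℝ → ENNReal) (x + t • u)) =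
      (∫⁻ t : ℝ, K.indicator (1 : ℝ × ℝ → ENNReal) (x + t • u)))
    {g : ℝ → ℝ} (hg : Measurable g) :
    ∫ x in E, g (l x) = ∫ x in K, g (l x) := by
  have hlm : Measurable l := l.continuous_of_finiteDimensional.measurable
  rw [← integral_map hlm.aemeasurable hg.aestronglyMeasurable,
    ← integral_map hlm.aemeasurable hg.aestronglyMeasurable,
    map_restrict_eq u hu l hl hE hK hx]

end Pool.Agent.H81.XRay
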