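import Mathlib
import Pool.Agent.H81.XRay.Corner

/-!
Signs of the separating function.
-/

namespace Pool.Agent.H81.XRay

open Set Topology

/-- Sum of the two side functions. -/
noncomputable def phi (K : Set (ℝ × ℝ)) (η : ℝ) (n : ℕ) (x : ℝ × ℝ) : ℝ :=
  fL K η n x.1 + fL (mir K) η n x.2

theorem phi_swp (K : Set (ℝ × ℝ)) (η : ℝ) (n : ℕ) (x : ℝ × ℝ) :
    phi (mir K) η n x.swap = phi K η n x := by
  unfold phi
  rw [swp_swp, Prod.fst_swap, Prod.snd_swap, add_comm]

section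
variable {K : Set (ℝ × ℝ)} (h : Corner K)
include h

theorem Corner.phi_nonneg {η : ℝ} (n : ℕ) (x : ℝ × ℝ) : 0 ≤ phi K η n x :=
  add_nonneg (h.fL_nonneg n _) (h.swp.fL_nonneg n _)

theorem Corner.phi_convex {η : ℝ} (n : ℕ) {x y : ℝ × ℝ} (hx1 : 0 ≤ x.1) (hx2 : 0 ≤ x.2)
    (hy1 : 0 ≤ y.1) (hy2 : 0 ≤ y.2) {a b : ℝ} (ha : 0 ≤ a) (hb : 0 ≤ b) (hab : a + b = 1) :
    phi K η n (a • x + b • y) ≤ a * phi K η n x + b * phi K η n y := by
  unfold phi
  simp only [Prod.fst_add, Prod.snd_add, Prod.smul_fst, Prod.smul_snd, smul_eq_mul]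
  have h1 := h.fL_convex (η := η) n hx1 hy1 ha hb hab
  have h2 := h.swp.fL_convex (η := η) n hx2 hy2 ha hb hab
  linarith

theorem Corner.exists_right {y : ℝ} (hy : y ∈ Icc 0 (top K)) :
    ∃ r ∈ K, lev r = y ∧ ∀ x ∈ K, lev x = y → x.1 ≤ r.1 := by
  obtain ⟨x, hx, e⟩ := h.exists_level hy
  have hc : IsCompact (K ∩ {x : ℝ × ℝ | lev x = y}) :=
    h.cpt.inter_right (isClosed_eq lev_continuous continuous_const)
  obtain ⟨r, hr, hm⟩ := hc.exists_isMaxOn ⟨x, hx, e⟩ (f := Prod.fst) continuous_fst.continuousOn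
  exact ⟨r, hr.1, hr.2, fun z hz e => hm ⟨hz, e⟩⟩

theorem Corner.exists_left {y : ℝ} (hy : y ∈ Icc 0 (top K)) :
    ∃ l ∈ K, lev l = y ∧ ∀ x ∈ K, lev x = y → l.1 ≤ x.1 := by
  obtain ⟨r, hr, e, hm⟩ := h.swp.exists_right (y := y) (by rw [top_swp]; exact hy)
  refine ⟨r.swap, hr, by rw [lev_swap, e], fun x hx ex => ?_⟩
  have := hm x.swap (swap_mem_swp.2 hx) (by rw [lev_swap, ex])
  simp only [Prod.fst_swap] at this ⊢
  simp only [lev] at e ex
  linarith

theorem Corner.phi_right {η : ℝ} (n : ℕ) {r : ℝ × ℝ} (hr : r ∈ K)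
    (hmax : ∀ x ∈ K, lev x = lev r → x.1 ≤ r.1)
    (st : Gam (mir K) η (n + 1) (lev r) = Gam (mir K) η n (lev r)) :
    phi K η n r ≤ Gs K η n (lev r) := by
  have h1 := h.fL_right (η := η) n hr hmax
  have h2 := h.swp.fL_le_of_mem (η := η) n (swap_mem_swp.2 hr)
  rw [lev_swap, ← st] at h2
  have e1 : Gam (mir K) η (n + 1) (lev r) =
    max (η - lev r) 0 + Gam (mir K) η n (BB (mir K) (lev r)) := rfl
  rw [e1] at h2
  unfold phi Gs
  rw [h1]
  simp only [Prod.fst_swap] at h2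
  linarith

theorem Corner.phi_left {η : ℝ} (n : ℕ) {l : ℝ × ℝ} (hl : l ∈ K)
    (hmin : ∀ x ∈ K, lev x = lev l → l.1 ≤ x.1)
    (st : Gam K η (n + 1) (lev l) = Gam K η n (lev l)) :
    phi K η n l ≤ Gs K η n (lev l) := by
  rw [← phi_swp, ← Gs_swp, ← lev_swap l]
  apply h.swp.phi_right n (swap_mem_swp.2 hl)
  · intro x hx ex
    rw [lev_swap] at ex
    have := hmin x.swap hx (by rw [lev_swap, ex])
    simp only [Prod.fst_swap, lev] at *
    linarith
  · rw [swp_swp, lev_swap]; exact st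

omit h in
/-- A point between two points of its level. -/
theorem between {l r x : ℝ × ℝ} (hl : lev l = lev x) (hr : lev r = lev x) (h1 : l.1 ≤ x.1)
    (h2 : x.1 ≤ r.1) : ∃ a b : ℝ, 0 ≤ a ∧ 0 ≤ b ∧ a + b = 1 ∧ a • l + b • r = x := by
  rcases eq_or_lt_of_le (h1.trans h2) with h3 | h3
  · refine ⟨1, 0, zero_le_one, le_rfl, by ring, ?_⟩
    rw [one_smul, zero_smul, add_zero]
    have : l.1 = x.1 := by linarith
    ext
    · exact this
    · simp only [lev] at hl; linarith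
  · have hd : 0 < r.1 - l.1 := by linarith
    refine ⟨(r.1 - x.1) / (r.1 - l.1), (x.1 - l.1) / (r.1 - l.1),
      div_nonneg (by linarith) hd.le, div_nonneg (by linarith) hd.le, by field_simp; ring, ?_⟩
    have e1 : (r.1 - x.1) / (r.1 - l.1) * l.1 + (x.1 - l.1) / (r.1 - l.1) * r.1 = x.1 := by
      field_simp; ring
    have e2 : (r.1 - x.1) / (r.1 - l.1) + (x.1 - l.1) / (r.1 - l.1) = 1 := by
      field_simp; ring
    have l2 : l.2 = lev x - l.1 := by rw [← hl]; simp [lev]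
    have r2 : r.2 = lev x - r.1 := by rw [← hr]; simp [lev]
    ext
    · simpa using e1
    · simp only [Prod.snd_add, Prod.smul_snd, smul_eq_mul]
      rw [l2, r2]
      have : x.2 = lev x - x.1 := by simp [lev]
      rw [this]
      linear_combination lev x * e2 - e1

theorem Corner.sign_on {η : ℝ} (n : ℕ) {x : ℝ × ℝ} (hx : x ∈ K)
    (st : Gam K η (n + 1) (lev x) = Gam K η n (lev x))
    (st' : Gam (mir K) η (n + 1) (lev x) = Gam (mir K) η n (lev x)) :
    phi K η n x ≤ Gs K η n (lev x) := by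
  have hy : lev x ∈ Icc 0 (top K) := ⟨h.lev_nonneg hx, h.le_top hx⟩
  obtain ⟨r, hr, er, hmr⟩ := h.exists_right hy
  obtain ⟨l, hl, el, hml⟩ := h.exists_left hy
  have h1 := h.phi_right (η := η) n hr (by rw [er]; exact hmr) (by rw [er]; exact st')
  have h2 := h.phi_left (η := η) n hl (by rw [el]; exact hml) (by rw [el]; exact st)
  rw [er] at h1
  rw [el] at h2
  obtain ⟨a, b, ha, hb, hab, e⟩ := between el er (hml x hx rfl) (hmr x hx rfl)
  have h3 := h.phi_convex (η := η) n (h.fst l hl) (h.snd l hl) (h.fst r hr) (h.snd r hr) ha hb hab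
  rw [e] at h3
  calc phi K η n x ≤ _ := h3
    _ ≤ a * Gs K η n (lev x) + b * Gs K η n (lev x) :=
      add_le_add (mul_le_mul_of_nonneg_left h2 ha) (mul_le_mul_of_nonneg_left h1 hb)
    _ = Gs K η n (lev x) := by rw [← add_mul, hab, one_mul]

theorem Corner.phi_left_ge {η : ℝ} (n : ℕ) {l : ℝ × ℝ} (hl : l ∈ K) (hpos : 0 < l.1)
    (hmin : ∀ x ∈ K, lev x = lev l → l.1 ≤ x.1)
    (st : Gam K η (n + 1) (lev l) = Gam K η n (lev l)) :
    Gs K η n (lev l) ≤ phi K η n l := by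
  have h1 := h.fL_left (η := η) n hl hpos hmin
  have h2 := h.swp.fL_right (η := η) n (swap_mem_swp.2 hl) (by
    intro x hx ex
    rw [lev_swap] at ex
    have := hmin x.swap hx (by rw [lev_swap, ex])
    simp only [Prod.fst_swap, lev] at *
    linarith)
  rw [lev_swap, Prod.fst_swap] at h2
  unfold phi Gs
  rw [h1, h2, ← st]
  have e1 : Gam K η (n + 1) (lev l) = max (η - lev l) 0 + Gam K η n (BB K (lev l)) := rfl
  rw [e1]

theorem Corner.off_left {η : ℝ} (n : ℕ) {l m x : ℝ × ℝ} (hl : l ∈ K) (hm : m ∈ K)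
    (el : lev l = lev x) (em : lev m = lev x)
    (hmin : ∀ z ∈ K, lev z = lev x → l.1 ≤ z.1) (hx1 : 0 ≤ x.1) (hx2 : 0 ≤ x.2)
    (hxl : x.1 < l.1) (hlm : l.1 < m.1)
    (st : Gam K η (n + 1) (lev x) = Gam K η n (lev x))
    (st' : Gam (mir K) η (n + 1) (lev x) = Gam (mir K) η n (lev x)) :
    Gs K η n (lev x) ≤ phi K η n x := by
  have h1 := h.phi_left_ge (η := η) n hl (lt_of_le_of_lt hx1 hxl) (by rw [el]; exact hmin)
    (by rw [el]; exact st)
  have h2 := h.sign_on (η := η) n hm (by rw [em]; exact st) (by rw [em]; exact st')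
  rw [el] at h1
  rw [em] at h2
  obtain ⟨a, b, ha, hb, hab, e⟩ := between (el.symm) (em.trans el.symm) hxl.le hlm.le
  have ha0 : 0 < a := by
    rcases eq_or_lt_of_le ha with h0 | h0
    · exfalso
      have hb1 : b = 1 := by linarith
      rw [← h0, hb1, zero_smul, one_smul, zero_add] at e
      rw [e] at hlm
      exact lt_irrefl _ hlm
    · exact h0
  have h3 := h.phi_convex (η := η) n hx1 hx2 (h.fst m hm) (h.snd m hm) ha hb hab
  rw [e] at h3
  have h4 := mul_le_mul_of_nonneg_left h2 hb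
  have h5 : a * Gs K η n (lev x) ≤ a * phi K η n x := by
    have : a = 1 - b := by linarith
    rw [this] at h3 ⊢
    linarith
  exact le_of_mul_le_mul_left h5 ha0

theorem Corner.exists_two {y : ℝ} (h0 : 0 < y) (h1 : y < top K) :
    ∃ a ∈ K, ∃ b ∈ K, lev a = y ∧ lev b = y ∧ a.1 < b.1 := by
  obtain ⟨w, hw, e⟩ := h.exists_interior_level h0 h1
  obtain ⟨r, hr, hb⟩ := exists_box hw
  refine ⟨w, interior_subset hw, (w.1 + r, w.2 - r), hb _ (by simp [abs_of_pos hr]) 
    (by simp [abs_of_pos hr]), e, ?_, by simp [hr]⟩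
  simp only [lev] at *
  linarith

theorem Corner.sign_off {η : ℝ} (hη1 : η < top K) (n : ℕ) {x : ℝ × ℝ} (hx : x ∉ K)
    (hx1 : 0 ≤ x.1) (hx2 : 0 ≤ x.2) (hxt : lev x ≤ top K)
    (st : Gam K η (n + 1) (lev x) = Gam K η n (lev x))
    (st' : Gam (mir K) η (n + 1) (lev x) = Gam (mir K) η n (lev x)) :
    Gs K η n (lev x) ≤ phi K η n x := by
  have hy : lev x ∈ Icc 0 (top K) := ⟨add_nonneg hx1 hx2, hxt⟩
  have hy' : lev x ∈ Icc 0 (top (mir K)) := by rw [top_swp]; exact hy
  rcases le_or_gt η (lev x) with hc | hc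
  · have h1 := h.Gam_eq_zero (η := η) n (h.BB_mem hy) (hc.trans (h.self_le_BB hy))
    have h2 := h.swp.Gam_eq_zero (η := η) n (h.swp.BB_mem hy') (hc.trans (h.swp.self_le_BB hy'))
    have h3 : Gs K η n (lev x) = 0 := by
      unfold Gs
      rw [h1, h2, max_eq_right (by linarith)]
      simp
    rw [h3]
    exact h.phi_nonneg n x
  · have hpos : 0 < lev x := by
      rcases eq_or_lt_of_le hy.1 with h0 | h0
      · exfalso
        apply hx
        have e1 : x.1 = 0 := by simp only [lev] at h0; linarith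
        have e2 : x.2 = 0 := by simp only [lev] at h0; linarith
        have : x = 0 := by ext <;> simp [e1, e2]
        rw [this]; exact h.zero
      · exact h0
    obtain ⟨a, ha, b, hb, ea, eb, hab⟩ := h.exists_two hpos (hc.trans hη1)
    obtain ⟨r, hr, er, hmr⟩ := h.exists_right hy
    obtain ⟨l, hl, el, hml⟩ := h.exists_left hy
    rcases lt_or_ge x.1 l.1 with h3 | h3
    · exact h.off_left n hl hb el eb hml hx1 hx2 h3 (lt_of_le_of_lt (hml a ha ea) hab) st st'
    · rcases lt_or_ge r.1 x.1 with h4 | h4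
      · rw [← phi_swp, ← Gs_swp, ← lev_swap x]
        refine h.swp.off_left (l := r.swap) (m := a.swap) (x := x.swap) n (swap_mem_swp.2 hr)
          (swap_mem_swp.2 ha) ?_ ?_ ?_ hx2 hx1 ?_ ?_ ?_ ?_
        · rw [lev_swap, lev_swap, er]
        · rw [lev_swap, lev_swap, ea]
        · intro z hz ez
          rw [lev_swap] at ez
          have := hmr z.swap hz (by rw [lev_swap, ez])
          simp only [Prod.fst_swap, lev] at *
          linarith
        · simp only [Prod.fst_swap, lev] at *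
          linarith
        · have := hmr b hb eb
          simp only [Prod.fst_swap, lev] at *
          linarith
        · rw [lev_swap]; exact st'
        · rw [lev_swap, swp_swp]; exact st
      · exfalso
        obtain ⟨a, b, ha, hb, hab, e⟩ := between el er h3 h4
        apply hx
        rw [← e]
        exact h.cvx hl hr ha hb hab

theorem Corner.Gs_anti {η : ℝ} (n : ℕ) : AntitoneOn (Gs K η n) (Icc 0 (top K)) := by
  intro s hs t ht hst
  have hs' : s ∈ Icc 0 (top (mir K)) := by rw [top_swp]; exact hs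
  have ht' : t ∈ Icc 0 (top (mir K)) := by rw [top_swp]; exact ht
  unfold Gs
  have h1 := h.Gam_anti (η := η) n (h.BB_mem hs) (h.BB_mem ht) (h.BB_mono hs ht hst)
  have h2 := h.swp.Gam_anti (η := η) n (h.swp.BB_mem hs') (h.swp.BB_mem ht')
    (h.swp.BB_mono hs' ht' hst)
  have h3 : max (η - t) 0 ≤ max (η - s) 0 := max_le_max (by linarith) le_rfl
  linarith

theorem Corner.Gs_nonneg {η : ℝ} (n : ℕ) {y : ℝ} (hy : y ∈ Icc 0 (top K)) :
    0 ≤ Gs K η n y := by
  have hy' : y ∈ Icc 0 (top (mir K)) := by rw [top_swp]; exact hy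
  unfold Gs
  have h1 := h.Gam_nonneg (η := η) n (h.BB_mem hy)
  have h2 := h.swp.Gam_nonneg (η := η) n (h.swp.BB_mem hy')
  have h3 : 0 ≤ max (η - y) 0 := le_max_right _ _
  linarith

theorem Corner.Gs_le {η : ℝ} (hη : 0 ≤ η) (n : ℕ) {y : ℝ} (hy : y ∈ Icc 0 (top K)) :
    Gs K η n y ≤ 2 * (η * (n + 1)) := by
  have hy' : y ∈ Icc 0 (top (mir K)) := by rw [top_swp]; exact hy
  unfold Gs
  have h1 := h.Gam_le hη n (h.BB_mem hy)
  have h2 := h.swp.Gam_le hη n (h.swp.BB_mem hy')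
  have h3 : max (η - y) 0 ≤ η := max_le (by linarith [hy.1]) hη
  linarith

/-- The separating functions near an interior point. -/
theorem Corner.main {x₀ : ℝ × ℝ} (hx₀ : x₀ ∈ interior K) :
    ∃ δ > 0, ∃ C > 0, ∃ lam > 1, ∃ U ∈ 𝓝 x₀, ∀ n : ℕ, ∃ f g G : ℝ → ℝ,
      Measurable f ∧ Measurable g ∧ Measurable G ∧
      (∀ s, |f s| ≤ C * (n + 1)) ∧ (∀ s, |g s| ≤ C * (n + 1)) ∧ (∀ s, |G s| ≤ 2 * (C * (n + 1))) ∧
      (∀ x ∈ K, C ≤ lam ^ n * lev x → f x.1 + g x.2 ≤ G (lev x)) ∧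
      (∀ x ∉ K, 0 ≤ x.1 → 0 ≤ x.2 → lev x ≤ top K → C ≤ lam ^ n * lev x →
        G (lev x) ≤ f x.1 + g x.2) ∧
      (∀ x ∈ U, f x.1 + g x.2 + δ ≤ G (lev x)) := by
  obtain ⟨r, hr, hb⟩ := exists_box hx₀
  -- coordinates of the centre
  have p1 : r ≤ x₀.1 := by
    have := h.fst _ (hb (x₀.1 - r, x₀.2) (by simp [abs_of_pos hr]) (by simp [hr.le]))
    simpa using this
  have p2 : r ≤ x₀.2 := by
    have := h.snd _ (hb (x₀.1, x₀.2 - r) (by simp [hr.le]) (by simp [abs_of_pos hr]))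
    simpa using this
  have pt : lev x₀ + 2 * r ≤ top K := by
    have := h.le_top (hb (x₀.1 + r, x₀.2 + r) (by simp [abs_of_pos hr]) (by simp [abs_of_pos hr]))
    simp only [lev] at *
    linarith
  have plev : lev x₀ = x₀.1 + x₀.2 := rfl
  set η : ℝ := lev x₀ + r / 2 with hηdef
  have hη0 : 0 < η := by rw [hηdef, plev]; linarith
  have hηt : η < top K := by linarith
  have a4 : |(-(r / 4))| ≤ r := by rw [abs_neg, abs_of_pos (by linarith)]; linarith
  -- the lower left reference point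
  have q0 : (x₀.1 - r / 4, x₀.2 - r / 4) ∈ K := hb _ (by simpa using a4) (by simpa using a4)
  have q1 : (x₀.1 - r / 4, x₀.2 + r) ∈ K := hb _ (by simpa using a4) (by simp [abs_of_pos hr])
  have q2 : (x₀.1 + r, x₀.2 - r / 4) ∈ K := hb _ (by simp [abs_of_pos hr]) (by simpa using a4)
  have hB : η ≤ BB K (lev x₀ - r / 2) := by
    have := h.le_BB q0 q1 le_rfl
    have e1 : lev (x₀.1 - r / 4, x₀.2 - r / 4) = lev x₀ - r / 2 := by simp only [lev]; ring
    rw [e1] at this
    simp only [lev] at *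
    linarith
  have hB' : η ≤ BB (mir K) (lev x₀ - r / 2) := by
    have := h.swp.le_BB (a := (x₀.2 - r / 4, x₀.1 - r / 4)) (b := (x₀.2 - r / 4, x₀.1 + r))
      (mem_swp.2 q0) (mem_swp.2 q2) le_rfl
    have e1 : lev (x₀.2 - r / 4, x₀.1 - r / 4) = lev x₀ - r / 2 := by simp only [lev]; ring
    rw [e1] at this
    simp only [lev] at *
    linarith
  have hY : η ≤ YL K (x₀.1 - r / 4) := by
    have := h.le_YL q1 le_rfl
    simp only [lev] at *
    linarith
  have hY' : η ≤ YL (mir K) (x₀.2 - r / 4) := by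
    have := h.swp.le_YL (x := (x₀.2 - r / 4, x₀.1 + r)) (mem_swp.2 q2) le_rfl
    simp only [lev] at *
    linarith
  obtain ⟨l1, hl1, hl1'⟩ := h.exists_lam hη0 hηt
  obtain ⟨l2, hl2, hl2'⟩ := h.swp.exists_lam hη0 (by rw [top_swp]; exact hηt)
  set lam : ℝ := min l1 l2 with hlam
  have hlam1 : 1 < lam := lt_min hl1 hl2
  have hst : ∀ y, 0 ≤ y → y ≤ η → lam * y ≤ BB K y := fun y h1 h2 =>
    (mul_le_mul_of_nonneg_right (min_le_left _ _) h1).trans (hl1' y h1 h2)
  have hst' : ∀ y, 0 ≤ y → y ≤ η → lam * y ≤ BB (mir K) y := fun y h1 h2 =>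
    (mul_le_mul_of_nonneg_right (min_le_right _ _) h1).trans (hl2' y h1 h2)
  refine ⟨r / 4, by linarith, η, hη0, lam, hlam1, 
    {x : ℝ × ℝ | x₀.1 - r / 8 < x.1} ∩ {x : ℝ × ℝ | x.1 < x₀.1 + r / 8} ∩
    ({x : ℝ × ℝ | x₀.2 - r / 8 < x.2} ∩ {x : ℝ × ℝ | x.2 < x₀.2 + r / 8}), ?_, ?_⟩
  · refine IsOpen.mem_nhds ?_ ?_
    · refine ((isOpen_lt continuous_const continuous_fst).inter
        (isOpen_lt continuous_fst continuous_const)).inter
        ((isOpen_lt continuous_const continuous_snd).inter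
        (isOpen_lt continuous_snd continuous_const))
    · simp only [mem_inter_iff, mem_ofPred_eq]
      refine ⟨⟨?_, ?_⟩, ?_, ?_⟩ <;> linarith
  · intro n
    have hclamp : ∀ y, max 0 (min y (top K)) ∈ Icc 0 (top K) := fun y =>
      ⟨le_max_left _ _, max_le h.top_nonneg (min_le_right _ _)⟩
    have hcl : ∀ {y}, y ∈ Icc 0 (top K) → max 0 (min y (top K)) = y := by
      intro y hy
      rw [min_eq_left hy.2, max_eq_right hy.1]
    refine ⟨fL K η n, fL (mir K) η n, fun y => Gs K η n (max 0 (min y (top K))),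
      (h.fL_anti n).measurable, (h.swp.fL_anti n).measurable, ?_, ?_, ?_, ?_, ?_, ?_, ?_⟩
    · apply Antitone.measurable
      intro s t hst
      exact h.Gs_anti n (hclamp s) (hclamp t) (max_le_max le_rfl (min_le_min hst le_rfl))
    · intro s
      rw [abs_of_nonneg (h.fL_nonneg n s)]
      have := h.fL_le hη0.le n s
      nlinarith
    · intro s
      rw [abs_of_nonneg (h.swp.fL_nonneg n s)]
      have := h.swp.fL_le hη0.le n s
      nlinarith
    · intro s
      simp only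
      rw [abs_of_nonneg (h.Gs_nonneg n (hclamp s))]
      exact h.Gs_le hη0.le n (hclamp s)
    · intro x hx hC
      have hy : lev x ∈ Icc 0 (top K) := ⟨h.lev_nonneg hx, h.le_top hx⟩
      have hy' : lev x ∈ Icc 0 (top (mir K)) := by rw [top_swp]; exact hy
      simp only
      rw [hcl hy]
      exact h.sign_on n hx (h.Gam_stab hlam1 hst n hy hC) (h.swp.Gam_stab hlam1 hst' n hy' hC)
    · intro x hx h1 h2 h3 hC
      have hy : lev x ∈ Icc 0 (top K) := ⟨add_nonneg h1 h2, h3⟩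
      have hy' : lev x ∈ Icc 0 (top (mir K)) := by rw [top_swp]; exact hy
      simp only
      rw [hcl hy]
      exact h.sign_off hηt n hx h1 h2 h3 (h.Gam_stab hlam1 hst n hy hC)
        (h.swp.Gam_stab hlam1 hst' n hy' hC)
    · rintro x ⟨⟨u1, u2⟩, u3, u4⟩
      simp only [mem_ofPred_eq] at u1 u2 u3 u4
      have elx : lev x = x.1 + x.2 := rfl
      have hy : lev x ∈ Icc 0 (top K) := ⟨by linarith, by linarith⟩
      have hy' : lev x ∈ Icc 0 (top (mir K)) := by rw [top_swp]; exact hy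
      have hz : lev x₀ - r / 2 ∈ Icc 0 (top K) := ⟨by linarith, by linarith⟩
      have hz' : lev x₀ - r / 2 ∈ Icc 0 (top (mir K)) := by rw [top_swp]; exact hz
      have hzy : lev x₀ - r / 2 ≤ lev x := by linarith
      simp only
      rw [hcl hy]
      have g1 : Gam K η n (BB K (lev x)) = 0 :=
        h.Gam_eq_zero n (h.BB_mem hy) (hB.trans (h.BB_mono hz hy hzy))
      have g2 : Gam (mir K) η n (BB (mir K) (lev x)) = 0 :=
        h.swp.Gam_eq_zero n (h.swp.BB_mem hy') (hB'.trans (h.swp.BB_mono hz' hy' hzy))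
      have x1 : (0:ℝ) ≤ x.1 := by linarith
      have x2 : (0:ℝ) ≤ x.2 := by linarith
      have g3 : fL K η n x.1 = 0 := by
        unfold fL
        rw [max_eq_left x1]
        apply h.Gam_eq_zero n (h.YL_mem x1)
        exact hY.trans (h.YL_mono (mem_Ici.2 (by linarith)) (mem_Ici.2 x1) (by linarith))
      have g4 : fL (mir K) η n x.2 = 0 := by
        unfold fL
        rw [max_eq_left x2]
        apply h.swp.Gam_eq_zero n (h.swp.YL_mem x2)
        exact hY'.trans (h.swp.YL_mono (mem_Ici.2 (by linarith)) (mem_Ici.2 x2) (by linarith))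
      unfold Gs
      rw [g1, g2, g3, g4]
      have : η - lev x ≤ max (η - lev x) 0 := le_max_left _ _
      linarith

end

end Pool.Agent.H81.XRay
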