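import Mathlib
import Pool.Agent.H81.XRay.Sign
import Pool.Agent.H81.XRay.Marginal

/-!
Assembly: a convex body with a corner is verified by three X-rays.
-/

namespace Pool.Agent.H81.XRay

open MeasureTheory Set Topology

/-- The linear map with the two functionals as coordinates. -/
def pq (p q : (ℝ × ℝ) →ₗ[ℝ] ℝ) : (ℝ × ℝ) →ₗ[ℝ] (ℝ × ℝ) := p.prod q

theorem form (p : (ℝ × ℝ) →ₗ[ℝ] ℝ) (x : ℝ × ℝ) : p x = p (1, 0) * x.1 + p (0, 1) * x.2 := by
  have : x = x.1 • ((1 : ℝ), (0 : ℝ)) + x.2 • ((0 : ℝ), (1 : ℝ)) := by ext <;> simp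
  conv_lhs => rw [this]
  rw [map_add, map_smul, map_smul, smul_eq_mul, smul_eq_mul]; ring

theorem det_ne {p q : (ℝ × ℝ) →ₗ[ℝ] ℝ} (h : LinearIndependent ℝ ![p, q]) :
    p (1, 0) * q (0, 1) - p (0, 1) * q (1, 0) ≠ 0 := by
  intro h0
  rw [LinearIndependent.pair_iff] at h
  have h1 := h (q (0, 1)) (-p (0, 1)) (by
    apply LinearMap.ext; intro x
    simp only [LinearMap.add_apply, LinearMap.smul_apply, smul_eq_mul, LinearMap.zero_apply]
    rw [form p x, form q x]
    linear_combination x.1 * h0)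
  have h2 := h (q (1, 0)) (-p (1, 0)) (by
    apply LinearMap.ext; intro x
    simp only [LinearMap.add_apply, LinearMap.smul_apply, smul_eq_mul, LinearMap.zero_apply]
    rw [form p x, form q x]
    linear_combination -x.2 * h0)
  have h3 := h 1 0 (by
    apply LinearMap.ext; intro x
    simp only [LinearMap.add_apply, LinearMap.smul_apply, smul_eq_mul, LinearMap.zero_apply]
    rw [form p x, form q x]
    have e1 : p (0, 1) = 0 := by linarith [h1.2]
    have e2 : p (1, 0) = 0 := by linarith [h2.2]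
    rw [e1, e2]; ring)
  exact one_ne_zero h3.1

theorem pq_injective {p q : (ℝ × ℝ) →ₗ[ℝ] ℝ}
    (h : p (1, 0) * q (0, 1) - p (0, 1) * q (1, 0) ≠ 0) : Function.Injective (pq p q) := by
  rw [← LinearMap.ker_eq_bot, LinearMap.ker_eq_bot']
  intro x hx
  have h1 : p x = 0 := by
    have := congrArg Prod.fst hx
    simpa [pq] using this
  have h2 : q x = 0 := by
    have := congrArg Prod.snd hx
    simpa [pq] using this
  rw [form] at h1 h2
  have e1 : (p (1, 0) * q (0, 1) - p (0, 1) * q (1, 0)) * x.1 = 0 := by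
    linear_combination q (0, 1) * h1 - p (0, 1) * h2
  have e2 : (p (1, 0) * q (0, 1) - p (0, 1) * q (1, 0)) * x.2 = 0 := by
    linear_combination p (1, 0) * h2 - q (1, 0) * h1
  ext
  · simpa using (mul_eq_zero.1 e1).resolve_left h
  · simpa using (mul_eq_zero.1 e2).resolve_left h

/-- The homeomorphism taking the corner to the origin. -/
noncomputable def chart (p q : (ℝ × ℝ) →ₗ[ℝ] ℝ) (hi : Function.Injective (pq p q)) (v : ℝ × ℝ) :
    (ℝ × ℝ) ≃ₜ (ℝ × ℝ) :=
  (Homeomorph.addRight (-v)).trans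
    (LinearEquiv.ofInjectiveEndo (pq p q) hi).toContinuousLinearEquiv.toHomeomorph

theorem chart_apply (p q : (ℝ × ℝ) →ₗ[ℝ] ℝ) (hi : Function.Injective (pq p q)) (v x : ℝ × ℝ) :
    chart p q hi v x = (p x - p v, q x - q v) := by
  have : chart p q hi v x = pq p q (x + -v) := rfl
  rw [this]
  simp [pq, sub_eq_add_neg]

theorem chart_combo (p q : (ℝ × ℝ) →ₗ[ℝ] ℝ) (hi : Function.Injective (pq p q)) (v x y : ℝ × ℝ)
    {a b : ℝ} (hab : a + b = 1) :
    chart p q hi v (a • x + b • y) = a • chart p q hi v x + b • chart p q hi v y := by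
  rw [chart_apply, chart_apply, chart_apply]
  ext
  · simp only [map_add, map_smul, Prod.fst_add, Prod.smul_fst, smul_eq_mul]
    linear_combination p v * hab
  · simp only [map_add, map_smul, Prod.snd_add, Prod.smul_snd, smul_eq_mul]
    linear_combination q v * hab

theorem corner_chart {K : Set (ℝ × ℝ)} (hc : IsCompact K) (hK : Convex ℝ K)
    (hi : (interior K).Nonempty) {p q : (ℝ × ℝ) →ₗ[ℝ] ℝ} (hinj : Function.Injective (pq p q))
    {v : ℝ × ℝ} (hv : v ∈ K) (hp : ∀ x ∈ K, p v ≤ p x) (hq : ∀ x ∈ K, q v ≤ q x) :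
    Corner (chart p q hinj v '' K) where
  cpt := hc.image (chart p q hinj v).continuous
  cvx := by
    rintro _ ⟨x, hx, rfl⟩ _ ⟨y, hy, rfl⟩ a b ha hb hab
    exact ⟨a • x + b • y, hK hx hy ha hb hab, chart_combo p q hinj v x y hab⟩
  zero := ⟨v, hv, by rw [chart_apply]; simp⟩
  fst := by
    rintro _ ⟨x, hx, rfl⟩
    rw [chart_apply]
    exact sub_nonneg.2 (hp x hx)
  snd := by
    rintro _ ⟨x, hx, rfl⟩
    rw [chart_apply]
    exact sub_nonneg.2 (hq x hx)
  int := by
    rw [← Homeomorph.image_interior]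
    exact hi.image _

theorem real_le_of_seq {m D r : ℝ} (hr0 : 0 ≤ r) (hr1 : r < 1)
    (h : ∀ n : ℕ, m ≤ D * ((n + 1) * r ^ n)) : m ≤ 0 := by
  have h1 : Filter.Tendsto (fun n : ℕ => (n : ℝ) * r ^ n) Filter.atTop (𝓝 0) :=
    tendsto_self_mul_const_pow_of_lt_one hr0 hr1
  have h2 : Filter.Tendsto (fun n : ℕ => r ^ n) Filter.atTop (𝓝 0) :=
    tendsto_pow_atTop_nhds_zero_of_lt_one hr0 hr1
  have h3 : Filter.Tendsto (fun n : ℕ => D * (((n : ℝ) + 1) * r ^ n)) Filter.atTop (𝓝 0) := by
    have := (h1.add h2).const_mul D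
    simp only [add_zero, mul_zero] at this
    refine this.congr fun n => ?_
    ring
  exact ge_of_tendsto' h3 h

/-- The measure of a body near the corner. -/
theorem real_near {K : Set (ℝ × ℝ)} {p q : (ℝ × ℝ) →ₗ[ℝ] ℝ}
    (hdet : LinearMap.det (pq p q) ≠ 0)
    {v : ℝ × ℝ} (hp : ∀ x ∈ K, p v ≤ p x) (hq : ∀ x ∈ K, q v ≤ q x) {ε : ℝ} (hε : 0 ≤ ε) :
    volume.real ({x | p x - p v + (q x - q v) < ε} ∩ K) ≤ |(LinearMap.det (pq p q))⁻¹| * (ε * ε) := by
  have hsub : {x | p x - p v + (q x - q v) < ε} ∩ K ⊆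
      (pq p q) ⁻¹' (Icc (p v) (p v + ε) ×ˢ Icc (q v) (q v + ε)) := by
    rintro x ⟨hx, hxK⟩
    have h1 := hp x hxK
    have h2 := hq x hxK
    simp only [mem_ofPred_eq] at hx
    have e : pq p q x = (p x, q x) := by simp [pq]
    rw [mem_preimage, e, mem_prod]
    exact ⟨⟨h1, by simp only; linarith⟩, ⟨h2, by simp only; linarith⟩⟩
  have hvol : volume ((pq p q) ⁻¹' (Icc (p v) (p v + ε) ×ˢ Icc (q v) (q v + ε))) =
      ENNReal.ofReal (|(LinearMap.det (pq p q))⁻¹| * (ε * ε)) := by
    rw [Measure.addHaar_preimage_linearMap _ hdet, Measure.volume_eq_prod, Measure.prod_prod,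
      Real.volume_Icc, Real.volume_Icc, add_sub_cancel_left, add_sub_cancel_left,
      ENNReal.ofReal_mul (abs_nonneg _), ENNReal.ofReal_mul hε]
  have h1 : volume ({x | p x - p v + (q x - q v) < ε} ∩ K) ≤
      ENNReal.ofReal (|(LinearMap.det (pq p q))⁻¹| * (ε * ε)) := (measure_mono hsub).trans hvol.le
  have h2 : 0 ≤ |(LinearMap.det (pq p q))⁻¹| * (ε * ε) := by positivity
  have h3 := ENNReal.toReal_mono ENNReal.ofReal_ne_top h1
  rw [ENNReal.toReal_ofReal h2] at h3
  exact h3

/-- Near every interior point nothing of the body is missing. -/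
theorem local_null {K : Set (ℝ × ℝ)} (hc : IsCompact K) (hK : Convex ℝ K)
    (hi : (interior K).Nonempty) {p q : (ℝ × ℝ) →ₗ[ℝ] ℝ} (hinj : Function.Injective (pq p q))
    {v : ℝ × ℝ} (hv : v ∈ K) (hp : ∀ x ∈ K, p v ≤ p x) (hq : ∀ x ∈ K, q v ≤ q x)
    {L : Set (ℝ × ℝ)} (hL : MeasurableSet L)
    (u : Fin 3 → ℝ × ℝ) (hu : ∀ i, u i ≠ 0) (h0 : p (u 0) = 0) (h1 : q (u 1) = 0)
    (h2 : (p + q) (u 2) = 0)
    (hx : ∀ i : Fin 3, ∀ᵐ x ∂(volume : Measure (ℝ × ℝ)),
      (∫⁻ t : ℝ, L.indicator (1 : ℝ × ℝ → ENNReal) (x + t • u i)) =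
      (∫⁻ t : ℝ, K.indicator (1 : ℝ × ℝ → ENNReal) (x + t • u i)))
    {x₀ : ℝ × ℝ} (hx₀ : x₀ ∈ interior K) : ∃ V ∈ 𝓝 x₀, volume (V ∩ (K \ L)) = 0 := by
  have hKm : MeasurableSet K := hc.isClosed.measurableSet
  have hdet : LinearMap.det (pq p q) ≠ 0 := by
    have := (LinearEquiv.ofInjectiveEndo (pq p q) hinj).isUnit_det'
    exact this.ne_zero
  have hpm : Measurable p := p.continuous_of_finiteDimensional.measurable
  have hqm : Measurable q := q.continuous_of_finiteDimensional.measurable
  set c := chart p q hinj v with hcdef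
  have hC : Corner (c '' K) := corner_chart hc hK hi hinj hv hp hq
  have hc1 : ∀ x, (c x).1 = p x - p v := fun x => by rw [hcdef, chart_apply]
  have hc2 : ∀ x, (c x).2 = q x - q v := fun x => by rw [hcdef, chart_apply]
  have hcl : ∀ x, lev (c x) = p x - p v + (q x - q v) := fun x => by rw [lev, hc1, hc2]
  obtain ⟨δ, hδ, C, hCpos, lam, hlam, U, hU, hmain⟩ := hC.main (x₀ := c x₀)
    (by rw [← Homeomorph.image_interior]; exact mem_image_of_mem _ hx₀)
  obtain ⟨U', hU'U, hU'o, hU'x⟩ := mem_nhds_iff.1 hU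
  have hVo : IsOpen (c ⁻¹' U') := hU'o.preimage c.continuous
  refine ⟨c ⁻¹' U', hVo.mem_nhds hU'x, ?_⟩
  have hVm : MeasurableSet (c ⁻¹' U') := hVo.measurableSet
  -- total measures
  have hKfin : volume K < ⊤ := hc.measure_lt_top
  have hLK : volume L = volume K := by
    have := measure_strip_eq (u 0) (hu 0) p h0 hL hKm (hx 0) MeasurableSet.univ
    simpa using this
  have hLfin : volume L < ⊤ := by rw [hLK]; exact hKfin
  -- the set L is almost contained in the circumscribed triangle
  have hLp : ∀ᵐ x ∂volume, x ∈ L → p v ≤ p x := by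
    rw [ae_iff]
    have e : {x | ¬ (x ∈ L → p v ≤ p x)} = L ∩ p ⁻¹' (Iio (p v)) := by
      ext x; simp
    rw [e, measure_strip_eq (u 0) (hu 0) p h0 hL hKm (hx 0) measurableSet_Iio]
    have e2 : K ∩ p ⁻¹' (Iio (p v)) = ∅ := by
      ext x
      simp only [mem_inter_iff, mem_preimage, mem_Iio, mem_empty_iff_false, iff_false, not_and,
        not_lt]
      exact hp x
    rw [e2, measure_empty]
  have hLq : ∀ᵐ x ∂volume, x ∈ L → q v ≤ q x := by
    rw [ae_iff]
    have e : {x | ¬ (x ∈ L → q v ≤ q x)} = L ∩ q ⁻¹' (Iio (q v)) := by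
      ext x; simp
    rw [e, measure_strip_eq (u 1) (hu 1) q h1 hL hKm (hx 1) measurableSet_Iio]
    have e2 : K ∩ q ⁻¹' (Iio (q v)) = ∅ := by
      ext x
      simp only [mem_inter_iff, mem_preimage, mem_Iio, mem_empty_iff_false, iff_false, not_and,
        not_lt]
      exact hq x
    rw [e2, measure_empty]
  have hLt : ∀ᵐ x ∂volume, x ∈ L → lev (c x) ≤ top (c '' K) := by
    rw [ae_iff]
    have e : {x | ¬ (x ∈ L → lev (c x) ≤ top (c '' K))} =
        L ∩ (p + q) ⁻¹' (Ioi (top (c '' K) + (p v + q v))) := by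
      ext x
      simp only [mem_ofPred_eq, hcl, Classical.not_imp, not_le, mem_inter_iff, mem_preimage,
        LinearMap.add_apply, mem_Ioi]
      constructor <;> rintro ⟨a, b⟩ <;> exact ⟨a, by linarith⟩
    rw [e, measure_strip_eq (u 2) (hu 2) (p + q) h2 hL hKm (hx 2) measurableSet_Ioi]
    have e2 : K ∩ (p + q) ⁻¹' (Ioi (top (c '' K) + (p v + q v))) = ∅ := by
      ext x
      simp only [mem_inter_iff, mem_preimage, mem_Ioi, mem_empty_iff_false, iff_false, not_and,
        not_lt, LinearMap.add_apply]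
      intro hxK
      have := hC.le_top (mem_image_of_mem c hxK)
      rw [hcl] at this
      linarith
    rw [e2, measure_empty]
  -- the estimate
  have key : ∀ n : ℕ, δ * volume.real (c ⁻¹' U' ∩ (K \ L)) ≤
      (8 * C ^ 3 * |(LinearMap.det (pq p q))⁻¹|) * ((n + 1) * ((lam ^ 2)⁻¹) ^ n) := by
    intro n
    obtain ⟨f, g, G, hf, hg, hG, bf, bg, bG, hon, hoff, hloc⟩ := hmain n
    have hn0 : (0:ℝ) ≤ n := Nat.cast_nonneg n
    set M : ℝ := 4 * (C * (n + 1)) with hM
    have hMpos : 0 < M := by positivity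
    set F : ℝ × ℝ → ℝ := fun x => G (lev (c x)) - f (c x).1 - g (c x).2 with hF
    have hc1m : Measurable (fun x => (c x).1) := by simp_rw [hc1]; exact hpm.sub_const _
    have hc2m : Measurable (fun x => (c x).2) := by simp_rw [hc2]; exact hqm.sub_const _
    have hclm : Measurable (fun x => lev (c x)) := by
      simp_rw [hcl]; exact (hpm.sub_const _).add (hqm.sub_const _)
    have m1 : Measurable (fun x => G (lev (c x))) := hG.comp hclm
    have m2 : Measurable (fun x => f (c x).1) := hf.comp hc1m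
    have m3 : Measurable (fun x => g (c x).2) := hg.comp hc2m
    have hFm : Measurable F := (m1.sub m2).sub m3
    have hFb : ∀ x, |F x| ≤ M := by
      intro x
      have b1 := abs_le.1 (bG (lev (c x)))
      have b2 := abs_le.1 (bf (c x).1)
      have b3 := abs_le.1 (bg (c x).2)
      rw [abs_le, hF, hM]
      constructor <;> simp only <;> linarith [b1.1, b1.2, b2.1, b2.2, b3.1, b3.2]
    have hbint : ∀ (E : Set (ℝ × ℝ)) (φ : ℝ × ℝ → ℝ) (R : ℝ), volume E < ⊤ → Measurable φ →
        (∀ x, |φ x| ≤ R) → IntegrableOn φ E := by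
      intro E φ R hE hφ hb
      have : IsFiniteMeasure (volume.restrict E) := ⟨by rw [Measure.restrict_apply_univ]; exact hE⟩
      exact Integrable.of_bound hφ.aestronglyMeasurable R (Filter.Eventually.of_forall fun x => by
        rw [Real.norm_eq_abs]; exact hb x)
    -- equality of the integrals
    have hint : ∫ x in L, F x = ∫ x in K, F x := by
      have i1 : ∫ x in L, G (lev (c x)) = ∫ x in K, G (lev (c x)) := by
        have e : ∀ x, G (lev (c x)) = (fun s => G (s - (p v + q v))) ((p + q) x) := by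
          intro x
          rw [hcl]
          simp only [LinearMap.add_apply]
          congr 1
          ring
        simp_rw [e]
        exact integral_eq (u 2) (hu 2) (p + q) h2 hL hKm (hx 2)
          (g := fun s => G (s - (p v + q v))) (hG.comp (measurable_id.sub_const _))
      have i2 : ∫ x in L, f (c x).1 = ∫ x in K, f (c x).1 := by
        simp_rw [hc1]
        exact integral_eq (u 0) (hu 0) p h0 hL hKm (hx 0)
          (g := fun s => f (s - p v)) (hf.comp (measurable_id.sub_const _))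
      have i3 : ∫ x in L, g (c x).2 = ∫ x in K, g (c x).2 := by
        simp_rw [hc2]
        exact integral_eq (u 1) (hu 1) q h1 hL hKm (hx 1)
          (g := fun s => g (s - q v)) (hg.comp (measurable_id.sub_const _))
      have split : ∀ E : Set (ℝ × ℝ), volume E < ⊤ → ∫ x in E, F x =
          (∫ x in E, G (lev (c x))) - (∫ x in E, f (c x).1) - (∫ x in E, g (c x).2) := by
        intro E hE
        have j1 := hbint E (fun x => G (lev (c x))) (2 * (C * (n + 1))) hE m1 (fun x => bG _)
        have j2 := hbint E (fun x => f (c x).1) (C * (n + 1)) hE m2 (fun x => bf _)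
        have j3 := hbint E (fun x => g (c x).2) (C * (n + 1)) hE m3 (fun x => bg _)
        have s1 : ∫ x in E, F x =
            (∫ x in E, (G (lev (c x)) - f (c x).1)) - ∫ x in E, g (c x).2 :=
          integral_sub (j1.sub j2) j3
        rw [s1, integral_sub j1 j2]
      rw [split L hLfin, split K hKfin, i1, i2, i3]
    have hFint : ∀ E : Set (ℝ × ℝ), volume E < ⊤ → IntegrableOn F E :=
      fun E hE => hbint E F M hE hFm hFb
    have hdiff : ∫ x in L \ K, F x = ∫ x in K \ L, F x := by
      have a1 := integral_inter_add_sdiff hKm (hFint L hLfin)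
      have a2 := integral_inter_add_sdiff hL (hFint K hKfin)
      rw [inter_comm] at a2
      linarith
    have hKLfin : volume (K \ L) < ⊤ := (measure_mono sdiff_subset).trans_lt hKfin
    have hLKfin : volume (L \ K) < ⊤ := (measure_mono sdiff_subset).trans_lt hLfin
    set W : Set (ℝ × ℝ) := {x | lam ^ n * lev (c x) < C} with hW
    have hWm : MeasurableSet W := measurableSet_lt (hclm.const_mul _) measurable_const
    have hind : ∀ (E S : Set (ℝ × ℝ)) (e : ℝ), MeasurableSet S →
        ∫ x in E, S.indicator (fun _ => e) x = volume.real (S ∩ E) * e := by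
      intro E S e hS
      rw [integral_indicator_const e hS, measureReal_restrict_apply hS, smul_eq_mul]
    have hindb : ∀ (S : Set (ℝ × ℝ)) (e : ℝ) (x : ℝ × ℝ), 0 ≤ e →
        |S.indicator (fun _ => e) x| ≤ e := by
      intro S e x he
      by_cases hxS : x ∈ S
      · rw [indicator_of_mem hxS, abs_of_nonneg he]
      · rw [indicator_of_notMem hxS, abs_zero]; exact he
    have hlow : δ * volume.real (c ⁻¹' U' ∩ (K \ L)) - M * volume.real (W ∩ (K \ L)) ≤
        ∫ x in K \ L, F x := by
      have k1 := hbint (K \ L) (fun x => (c ⁻¹' U').indicator (fun _ => δ) x) δ hKLfin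
        (measurable_const.indicator hVm) (fun x => hindb _ _ _ hδ.le)
      have k2 := hbint (K \ L) (fun x => W.indicator (fun _ => M) x) M hKLfin
        (measurable_const.indicator hWm) (fun x => hindb _ _ _ hMpos.le)
      have k3 : ∫ x in K \ L, ((c ⁻¹' U').indicator (fun _ => δ) x - W.indicator (fun _ => M) x) =
          δ * volume.real (c ⁻¹' U' ∩ (K \ L)) - M * volume.real (W ∩ (K \ L)) := by
        rw [integral_sub k1 k2, hind _ _ _ hVm, hind _ _ _ hWm]; ring
      rw [← k3]
      refine setIntegral_mono_on (k1.sub k2) (hFint _ hKLfin) (hKm.diff hL) ?_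
      intro x hxKL
      have hFx := (abs_le.1 (hFb x)).1
      by_cases hxV : x ∈ c ⁻¹' U'
      · rw [indicator_of_mem hxV]
        have := hloc (c x) (hU'U hxV)
        have h5 : 0 ≤ W.indicator (fun _ => M) x := indicator_nonneg (fun _ _ => hMpos.le) x
        rw [hF]; simp only
        linarith
      · rw [indicator_of_notMem hxV]
        by_cases hxW : x ∈ W
        · rw [indicator_of_mem hxW]; linarith
        · rw [indicator_of_notMem hxW]
          have hxW' : C ≤ lam ^ n * lev (c x) := not_lt.1 hxW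
          have := hon (c x) (mem_image_of_mem c hxKL.1) hxW'
          rw [hF]; simp only
          linarith
    have hup : ∫ x in L \ K, F x ≤ M * volume.real (W ∩ (L \ K)) := by
      have k2 := hbint (L \ K) (fun x => W.indicator (fun _ => M) x) M hLKfin
        (measurable_const.indicator hWm) (fun x => hindb _ _ _ hMpos.le)
      have k3 : ∫ x in L \ K, W.indicator (fun _ => M) x = M * volume.real (W ∩ (L \ K)) := by
        rw [hind _ _ _ hWm]; ring
      rw [← k3]
      refine setIntegral_mono_on_ae (hFint _ hLKfin) k2 (hL.diff hKm) ?_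
      filter_upwards [hLp, hLq, hLt] with x e1 e2 e3 hxLK
      have hFx := (abs_le.1 (hFb x)).2
      by_cases hxW : x ∈ W
      · rw [indicator_of_mem hxW]; exact hFx
      · rw [indicator_of_notMem hxW]
        have hxW' : C ≤ lam ^ n * lev (c x) := not_lt.1 hxW
        have hxK : c x ∉ c '' K := by
          rintro ⟨z, hz, ez⟩
          exact hxLK.2 (c.injective ez ▸ hz)
        have := hoff (c x) hxK (by rw [hc1]; linarith [e1 hxLK.1])
          (by rw [hc2]; linarith [e2 hxLK.1]) (e3 hxLK.1) hxW'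
        rw [hF]; simp only
        linarith
    have hlamn : 0 < lam ^ n := by positivity
    have hWset : W = {x | p x - p v + (q x - q v) < C / lam ^ n} := by
      ext x
      simp only [hW, mem_ofPred_eq, hcl]
      rw [lt_div_iff₀ hlamn, mul_comm]
    have w1 : volume.real (W ∩ K) ≤
        |(LinearMap.det (pq p q))⁻¹| * ((C / lam ^ n) * (C / lam ^ n)) := by
      rw [hWset]
      exact real_near hdet hp hq (by positivity)
    have w2 : volume.real (W ∩ (K \ L)) ≤ volume.real (W ∩ K) :=
      measureReal_mono (inter_subset_inter_right _ sdiff_subset)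
        ((measure_mono inter_subset_right).trans_lt hKfin).ne
    have w3 : volume.real (W ∩ (L \ K)) ≤ volume.real (W ∩ K) := by
      have e1 : volume (W ∩ L) = volume (W ∩ K) := by
        have e : W = (p + q) ⁻¹' (Iio (C / lam ^ n + (p v + q v))) := by
          rw [hWset]
          ext x
          simp only [mem_ofPred_eq, mem_preimage, LinearMap.add_apply, mem_Iio]
          constructor <;> intro a <;> linarith
        rw [e, inter_comm, inter_comm _ K]
        exact measure_strip_eq (u 2) (hu 2) (p + q) h2 hL hKm (hx 2) measurableSet_Iio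
      have e2 : volume.real (W ∩ (L \ K)) ≤ volume.real (W ∩ L) :=
        measureReal_mono (inter_subset_inter_right _ sdiff_subset)
          ((measure_mono inter_subset_right).trans_lt hLfin).ne
      rw [measureReal_def, measureReal_def, e1] at e2
      exact e2
    have hfinal : δ * volume.real (c ⁻¹' U' ∩ (K \ L)) ≤ M * (2 * volume.real (W ∩ K)) := by
      have t1 := mul_le_mul_of_nonneg_left w2 hMpos.le
      have t2 := mul_le_mul_of_nonneg_left w3 hMpos.le
      rw [hdiff] at hup
      linarith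
    refine hfinal.trans ?_
    calc M * (2 * volume.real (W ∩ K)) ≤
        M * (2 * (|(LinearMap.det (pq p q))⁻¹| * ((C / lam ^ n) * (C / lam ^ n)))) := by
          apply mul_le_mul_of_nonneg_left _ hMpos.le
          linarith
      _ = _ := by
          rw [hM, inv_pow, ← pow_mul, mul_comm 2 n, pow_mul]
          field_simp
          ring
  have hm : δ * volume.real (c ⁻¹' U' ∩ (K \ L)) ≤ 0 :=
    real_le_of_seq (by positivity) (inv_lt_one_of_one_lt₀ (by nlinarith)) key
  have hm0 : volume.real (c ⁻¹' U' ∩ (K \ L)) = 0 := by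
    have h3 : 0 ≤ volume.real (c ⁻¹' U' ∩ (K \ L)) := measureReal_nonneg
    nlinarith
  have hfin : volume (c ⁻¹' U' ∩ (K \ L)) ≠ ⊤ :=
    ((measure_mono (inter_subset_right.trans sdiff_subset)).trans_lt hKfin).ne
  rw [measureReal_def, ENNReal.toReal_eq_zero_iff] at hm0
  exact hm0.resolve_right hfin

/-- The three directions. -/
def dirs (p q : (ℝ × ℝ) →ₗ[ℝ] ℝ) : Fin 3 → ℝ × ℝ :=
  ![(p (0, 1), -p (1, 0)), (q (0, 1), -q (1, 0)), ((p + q) (0, 1), -(p + q) (1, 0))]

theorem indep_of_det {a b : ℝ × ℝ} (h : a.1 * b.2 - a.2 * b.1 ≠ 0) :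
    LinearIndependent ℝ ![a, b] := by
  rw [LinearIndependent.pair_iff]
  intro s t hst
  have h1 : s * a.1 + t * b.1 = 0 := by
    have := congrArg Prod.fst hst
    simpa using this
  have h2 : s * a.2 + t * b.2 = 0 := by
    have := congrArg Prod.snd hst
    simpa using this
  have e1 : (a.1 * b.2 - a.2 * b.1) * s = 0 := by linear_combination b.2 * h1 - b.1 * h2
  have e2 : (a.1 * b.2 - a.2 * b.1) * t = 0 := by linear_combination a.1 * h2 - a.2 * h1
  exact ⟨(mul_eq_zero.1 e1).resolve_left h, (mul_eq_zero.1 e2).resolve_left h⟩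

theorem dirs_indep {p q : (ℝ × ℝ) →ₗ[ℝ] ℝ}
    (h : p (1, 0) * q (0, 1) - p (0, 1) * q (1, 0) ≠ 0) (i j : Fin 3) (hij : i ≠ j) :
    LinearIndependent ℝ ![dirs p q i, dirs p q j] := by
  apply indep_of_det
  intro h0
  apply h
  fin_cases i <;> fin_cases j <;> simp [dirs] at hij h0 ⊢ <;> linarith

theorem verified {K : Set (ℝ × ℝ)} (hc : IsCompact K) (hK : Convex ℝ K)
    (hi : (interior K).Nonempty) {p q : (ℝ × ℝ) →ₗ[ℝ] ℝ} (hind : LinearIndependent ℝ ![p, q])
    {v : ℝ × ℝ} (hv : v ∈ K) (hp : ∀ x ∈ K, p v ≤ p x) (hq : ∀ x ∈ K, q v ≤ q x)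
    {L : Set (ℝ × ℝ)} (hL : MeasurableSet L)
    (hx : ∀ i : Fin 3, ∀ᵐ x ∂(volume : Measure (ℝ × ℝ)),
      (∫⁻ t : ℝ, L.indicator (1 : ℝ × ℝ → ENNReal) (x + t • dirs p q i)) =
      (∫⁻ t : ℝ, K.indicator (1 : ℝ × ℝ → ENNReal) (x + t • dirs p q i))) :
    L =ᵐ[(volume : Measure (ℝ × ℝ))] K := by
  have hdet := det_ne hind
  have hinj := pq_injective hdet
  have hKm : MeasurableSet K := hc.isClosed.measurableSet
  have hu : ∀ i, dirs p q i ≠ 0 := by
    intro i h0
    obtain ⟨j, hj⟩ : ∃ j : Fin 3, i ≠ j := ⟨i + 1, by fin_cases i <;> decide⟩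
    have := (dirs_indep hdet i j hj).ne_zero 0
    exact this h0
  have h0 : p (dirs p q 0) = 0 := by rw [form]; simp [dirs]; ring
  have h1 : q (dirs p q 1) = 0 := by rw [form]; simp [dirs]; ring
  have h2 : (p + q) (dirs p q 2) = 0 := by rw [form]; simp [dirs]; ring
  have hloc : volume (interior K ∩ (K \ L)) = 0 := by
    apply measure_null_of_locally_null
    intro x hxm
    obtain ⟨V, hV, hV0⟩ := local_null hc hK hi hinj hv hp hq hL (dirs p q) hu h0 h1 h2 hx hxm.1
    refine ⟨V ∩ (K \ L), ?_, hV0⟩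
    refine Filter.inter_mem (mem_nhdsWithin_of_mem_nhds hV) ?_
    exact Filter.mem_of_superset self_mem_nhdsWithin inter_subset_right
  have hfr : volume (frontier K) = 0 := hK.addHaar_frontier volume
  have hKL : volume (K \ L) = 0 := by
    refine measure_mono_null (t := (interior K ∩ (K \ L)) ∪ frontier K) ?_ ?_
    · intro x hx
      by_cases hxi : x ∈ interior K
      · exact Or.inl ⟨hxi, hx⟩
      · exact Or.inr ⟨subset_closure hx.1, hxi⟩
    · exact measure_union_null hloc hfr
  have hLK : volume L = volume K := by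
    have := measure_strip_eq (dirs p q 0) (hu 0) p h0 hL hKm (hx 0) MeasurableSet.univ
    simpa using this
  have hfin : volume L ≠ ⊤ := by rw [hLK]; exact hc.measure_lt_top.ne
  symm
  exact ae_eq_of_ae_subset_of_measure_ge (ae_le_set.2 hKL) hLK.le hKm.nullMeasurableSet hfin

end Pool.Agent.H81.XRay
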